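import Pool.Agent.MP_88e1ca_an.Full.E

set_option autoImplicit false

open Pool.Agent.MP_88e1ca_an.Min Pool.Agent.MP_88e1ca_an.Full

/-- For every `ε > 0` some full shift has a one-sided automorphism of infinite order whose `n`-th
iterate has one-sided radius `O(n ^ ε)`. -/
theorem Pool.Agent.MP_88e1ca_an.Full.polyRadius (ε : ℝ) (hε : 0 < ε) :
    ∃ (k : ℕ) (f g : (ℤ → Fin k) → (ℤ → Fin k)),
      Function.LeftInverse g f ∧ Function.RightInverse g f ∧ Continuous f ∧ Continuous g ∧
      (∀ x, f (shift x) = shift (f x)) ∧ HasRadius Set.univ f 2 ∧ HasRadius Set.univ g 2 ∧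
      (∀ n : ℕ, 1 ≤ n → f^[n] ≠ id) ∧
      ∃ C : ℝ, ∀ n : ℕ, 1 ≤ n → ∃ r : ℕ, (r : ℝ) ≤ C * (n : ℝ) ^ ε ∧ HasRadius Set.univ f^[n] r := by
  obtain ⟨d, hd⟩ := exists_nat_ge (1 / ε)
  rw [div_le_iff₀ hε] at hd
  obtain ⟨H, p, P, hH, hP⟩ := table d
  have h2 : 2 ≤ H := (Nat.le_self_pow (by rintro rfl; norm_num at hd) 2).trans hH
  have : NeZero H := ⟨by omega⟩
  let e := Finite.equivFin (Pool.Agent.MP_88e1ca_an.Full.Cell H)
  have it : ∀ n x, (fun x => e ∘ F P (e.symm ∘ x))^[n] x = e ∘ (F P)^[n] (e.symm ∘ x) := by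
    intro n x
    induction n with
    | zero => simp [← Function.comp_assoc]
    | succ n ih => simp [Function.iterate_succ_apply', ih, ← Function.comp_assoc]
  have r1 : HasRadius Set.univ (fun x => e ∘ F P (e.symm ∘ x)) 2 := fun x _ y _ i h => by
    simp [F, h i le_rfl (by omega), h (i + 1) (by omega) (by omega), h (i + 2) (by omega) (by omega)]
  have r2 : HasRadius Set.univ (fun x => e ∘ Fi P (e.symm ∘ x)) 2 := fun x _ y _ i h => by
    simp [Fi, h i le_rfl (by omega), h (i + 1) (by omega) (by omega), h (i + 2) (by omega) (by omega)]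
  refine ⟨_, fun x => e ∘ F P (e.symm ∘ x), fun x => e ∘ Fi P (e.symm ∘ x), fun x => ?_, fun x => ?_,
    continuousOn_univ.1 r1.cont, continuousOn_univ.1 r2.cont, fun x => funext fun i => ?_, r1, r2,
    fun n hn h => order hP h2 n hn fun x _ => funext fun i => e.injective ?_, 4 * (4 * H + 5),
    fun n hn => ⟨_, growth hd hH n hn, fun x _ y _ i h => ?_⟩⟩
  · have : Fi P (F P (e.symm ∘ x)) = e.symm ∘ x := (Φ P).left_inv _
    simp [← Function.comp_assoc, this]
  · have : F P (Fi P (e.symm ∘ x)) = e.symm ∘ x := (Φ P).right_inv _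
    simp [← Function.comp_assoc, this]
  · simp [F, shift, add_right_comm]
  · have := congrFun (congrFun h (e ∘ x)) i
    simpa [it, ← Function.comp_assoc] using this
  · rw [it, it]
    exact congrArg e (radius hP _ n (Nat.le_pow_clog h2 n) _ _ i fun j h1 h2 =>
      congrArg e.symm (h j h1 (by push_cast; exact h2)))
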