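import Pool.Agent.MP_88e1ca_an.TwoSided

set_option autoImplicit false

/-- A two-sided subshift with a one-sided automorphism of infinite order whose `n`-th iterate has
one-sided radius at most `36 * sqrt n`. -/
theorem Pool.Agent.MP_88e1ca_an.sqrtRadius :
    ∃ (k : ℕ) (X : Set (ℤ → Fin k)) (f g : (ℤ → Fin k) → (ℤ → Fin k)),
      X.Nonempty ∧ IsClosed X ∧ (fun (x : ℤ → Fin k) (i : ℤ) => x (i + 1)) '' X = X ∧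
      Set.MapsTo f X X ∧ Set.MapsTo g X X ∧ Set.InvOn g f X X ∧
      ContinuousOn f X ∧ ContinuousOn g X ∧
      (∀ x ∈ X, f (fun i => x (i + 1)) = fun i => f x (i + 1)) ∧
      (∃ r : ℕ, ∀ x ∈ X, ∀ y ∈ X, ∀ i : ℤ,
        (∀ j : ℤ, i ≤ j → j ≤ i + r → x j = y j) → f x i = f y i) ∧
      (∃ r : ℕ, ∀ x ∈ X, ∀ y ∈ X, ∀ i : ℤ,
        (∀ j : ℤ, i ≤ j → j ≤ i + r → x j = y j) → g x i = g y i) ∧
      (∀ n : ℕ, 1 ≤ n → ∃ x ∈ X, f^[n] x ≠ x) ∧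
      (∀ n : ℕ, 1 ≤ n → ∃ r : ℕ, (r : ℝ) ≤ 36 * Real.sqrt n ∧ ∀ x ∈ X, ∀ y ∈ X, ∀ i : ℤ,
        (∀ j : ℤ, i ≤ j → j ≤ i + r → x j = y j) → f^[n] x i = f^[n] y i) :=
  Pool.Agent.MP_88e1ca_an.two_sided
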